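import Pool.Agent.Helper57_QG.Slices

set_option autoImplicit false

open Filter Topology

namespace Pool.Agent.Helper57_QG

universe u

section ideal

variable {B : Type u} [NonUnitalCStarAlgebra B]

noncomputable local instance : CoeTC B (DoubleCentralizer ℂ B) := ⟨DoubleCentralizer.coe ℂ⟩

theorem fst_mul (x : DoubleCentralizer ℂ B) (b c : B) : x.fst (b * c) = x.fst b * c := by
  have h : ∀ y : B, y * (x.fst (b * c) - x.fst b * c) = 0 := fun y => by
    rw [mul_sub, ← x.central, ← mul_assoc y, ← x.central, mul_assoc, sub_self]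
  have h2 := h (star (x.fst (b * c) - x.fst b * c))
  rw [CStarRing.star_mul_self_eq_zero_iff] at h2
  exact sub_eq_zero.1 h2

theorem snd_mul (x : DoubleCentralizer ℂ B) (b c : B) : x.snd (b * c) = b * x.snd c := by
  have h : ∀ y : B, (x.snd (b * c) - b * x.snd c) * y = 0 := fun y => by
    rw [sub_mul, x.central, mul_assoc b (x.snd c), x.central, mul_assoc, sub_self]
  have h2 := h (star (x.snd (b * c) - b * x.snd c))
  rw [CStarRing.mul_star_self_eq_zero_iff] at h2
  exact sub_eq_zero.1 h2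

theorem mul_coe (x : DoubleCentralizer ℂ B) (b : B) :
    x * (b : DoubleCentralizer ℂ B) = ((x.fst b : B) : DoubleCentralizer ℂ B) := by
  refine DoubleCentralizer.ext ℂ B _ _ (Prod.ext ?_ ?_)
  · ext c
    simp [fst_mul]
  · ext c
    simp [x.central]

theorem coe_mul (x : DoubleCentralizer ℂ B) (b : B) :
    (b : DoubleCentralizer ℂ B) * x = ((x.snd b : B) : DoubleCentralizer ℂ B) := by
  refine DoubleCentralizer.ext ℂ B _ _ (Prod.ext ?_ ?_)
  · ext c
    simp [x.central]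
  · ext c
    simp [snd_mul]

theorem norm_coe (b : B) : ‖(b : DoubleCentralizer ℂ B)‖ = ‖b‖ := by
  rw [← DoubleCentralizer.norm_fst, DoubleCentralizer.coe_fst, ContinuousLinearMap.opNorm_mul_apply]

variable (B) in
/-- the ideal `B` of its multiplier algebra -/
def Bid : Submodule ℂ (DoubleCentralizer ℂ B) where
  carrier := {x | ∃ b : B, (b : DoubleCentralizer ℂ B) = x}
  add_mem' := by
    rintro _ _ ⟨b, rfl⟩ ⟨c, rfl⟩
    exact ⟨b + c, (DoubleCentralizer.coeHom (𝕜 := ℂ) (A := B)).map_add' b c⟩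
  zero_mem' := ⟨0, (DoubleCentralizer.coeHom (𝕜 := ℂ) (A := B)).map_zero'⟩
  smul_mem' := by
    rintro c _ ⟨b, rfl⟩
    exact ⟨c • b, (DoubleCentralizer.coeHom (𝕜 := ℂ) (A := B)).map_smul' c b⟩

theorem coe_sub (b c : B) : ((b - c : B) : DoubleCentralizer ℂ B) =
    (b : DoubleCentralizer ℂ B) - (c : DoubleCentralizer ℂ B) :=
  map_sub (DoubleCentralizer.coeHom (𝕜 := ℂ) (A := B)) b c

theorem isClosed_Bid : IsClosed (Bid B : Set (DoubleCentralizer ℂ B)) := by
  have hi : Isometry (fun b : B => (b : DoubleCentralizer ℂ B)) := by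
    refine Isometry.of_dist_eq fun x y => ?_
    rw [dist_eq_norm, dist_eq_norm, ← coe_sub, norm_coe]
  have : (Bid B : Set (DoubleCentralizer ℂ B)) = Set.range
      (fun b : B => (b : DoubleCentralizer ℂ B)) := rfl
  rw [this]
  exact hi.isClosedEmbedding.isClosed_range

theorem Bid_mul_left (x : DoubleCentralizer ℂ B) {y : DoubleCentralizer ℂ B} (hy : y ∈ Bid B) :
    x * y ∈ Bid B := by
  obtain ⟨b, rfl⟩ := hy
  exact ⟨x.fst b, (mul_coe x b).symm⟩

theorem Bid_mul_right (x : DoubleCentralizer ℂ B) {y : DoubleCentralizer ℂ B} (hy : y ∈ Bid B) :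
    y * x ∈ Bid B := by
  obtain ⟨b, rfl⟩ := hy
  exact ⟨x.snd b, (coe_mul x b).symm⟩

theorem pow_sub_pow_mem {x y : DoubleCentralizer ℂ B} (hx : x ∈ Bid B) (n : ℕ) :
    (x + y) ^ n - y ^ n ∈ Bid B := by
  induction n with
  | zero => simp
  | succ n ih =>
    have : (x + y) ^ (n + 1) - y ^ (n + 1) = ((x + y) ^ n - y ^ n) * (x + y) + y ^ n * x := by
      rw [pow_succ, pow_succ]
      noncomm_ring
    rw [this]
    exact (Bid B).add_mem (Bid_mul_right _ ih) (Bid_mul_left _ hx)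

theorem exp_sub_exp_mem {x y : DoubleCentralizer ℂ B} (hx : x ∈ Bid B) :
    NormedSpace.exp (x + y) - NormedSpace.exp y ∈ Bid B := by
  have h1 := (NormedSpace.exp_series_hasSum_exp' (𝕂 := ℂ) (x + y)).sub
    (NormedSpace.exp_series_hasSum_exp' (𝕂 := ℂ) y)
  have h2 := h1.tendsto_sum_nat
  refine isClosed_Bid.mem_of_tendsto h2 (Eventually.of_forall fun N => ?_)
  refine (Bid B).sum_mem fun n _ => ?_
  rw [← smul_sub]
  exact (Bid B).smul_mem _ (pow_sub_pow_mem hx n)

theorem ex_sub_ex_mem {x y : DoubleCentralizer ℂ B} (hx : x ∈ Bid B) (t : ℝ) :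
    ex (x + y) t - ex y t ∈ Bid B := by
  unfold ex
  rw [smul_add]
  exact exp_sub_exp_mem ((Bid B).smul_mem _ hx)

end ideal

variable {A E B : Type u} [NonUnitalCStarAlgebra A] [NormedRing E] [NormedAlgebra ℂ E]
  [NonUnitalCStarAlgebra B]

theorem inB_iff {D : ConvData A E} (R : Rep D B) (μ : E) : R.InB μ ↔ R.T μ ∈ Bid B := Iff.rfl

theorem T_continuous {D : ConvData A E} (R : Rep D B) : Continuous R.T := by
  refine AddMonoidHomClass.continuous_of_bound R.T 1 fun μ => ?_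
  rw [one_mul]
  exact R.norm_le μ

theorem T_ex {D : ConvData A E} [CompleteSpace E] (R : Rep D B) (G : E) (t : ℝ) :
    R.T (ex G t) = ex (R.T G) t := by
  let _ : NormedAlgebra ℚ E := NormedAlgebra.restrictScalars ℚ ℂ E
  let _ : NormedAlgebra ℚ (DoubleCentralizer ℂ B) :=
    NormedAlgebra.restrictScalars ℚ ℂ (DoubleCentralizer ℂ B)
  unfold ex
  rw [← map_smul]
  exact NormedSpace.map_exp R.T (T_continuous R) _

theorem tendsto_mul_of_fst {D : ConvData A E} (R : Rep D B) {l : Filter E}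
    (h : ∀ b : B, Tendsto (fun μ => (R.T μ).fst b) l (𝓝 b)) {x : DoubleCentralizer ℂ B}
    (hx : x ∈ Bid B) : Tendsto (fun μ => (R.T μ - 1) * x) l (𝓝 0) := by
  obtain ⟨b, rfl⟩ := hx
  have h1 := (h b)
  rw [tendsto_zero_iff_norm_tendsto_zero]
  have h2 : ∀ μ : E, ‖(R.T μ - 1) * (b : DoubleCentralizer ℂ B)‖ = ‖(R.T μ).fst b - b‖ := by
    intro μ
    rw [sub_mul, one_mul, mul_coe, ← coe_sub, norm_coe]
  simp only [h2]
  exact tendsto_iff_norm_sub_tendsto_zero.1 h1

theorem tendsto_mul_of_snd {D : ConvData A E} (R : Rep D B) {l : Filter E}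
    (h : ∀ b : B, Tendsto (fun μ => (R.T μ).snd b) l (𝓝 b)) {x : DoubleCentralizer ℂ B}
    (hx : x ∈ Bid B) : Tendsto (fun μ => x * (R.T μ - 1)) l (𝓝 0) := by
  obtain ⟨b, rfl⟩ := hx
  have h1 := (h b)
  rw [tendsto_zero_iff_norm_tendsto_zero]
  have h2 : ∀ μ : E, ‖(b : DoubleCentralizer ℂ B) * (R.T μ - 1)‖ = ‖(R.T μ).snd b - b‖ := by
    intro μ
    rw [mul_sub, mul_one, coe_mul, ← coe_sub, norm_coe]
  simp only [h2]
  exact tendsto_iff_norm_sub_tendsto_zero.1 h1

end Pool.Agent.Helper57_QG
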