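import Pool.Agent.Helper57_QG.RunLim

set_option autoImplicit false

open Filter Topology

namespace Pool.Agent.Helper57_QG

universe u

variable {A E B : Type u} [NonUnitalCStarAlgebra A] [NormedRing E] [NormedAlgebra ℂ E]
  [NonUnitalCStarAlgebra B]

theorem condS_of_amenable [TopologicalSpace.SeparableSpace A] (D : QGroup A E)
    (R : Rep D.toConvData B) (h1 : D.Amenable) (h2 : R.Haagerup) : D.CondS R := by
  have hE : CompleteSpace E := complete_E D.toConvData
  obtain ⟨la, hla, hla1, hla2⟩ := h1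
  obtain ⟨lh, hlh, hlh1, hlh2, hlh3⟩ := h2
  obtain ⟨ω₀, hω, hω'⟩ := D.L1_state
  have : Nonempty A := ⟨0⟩
  obtain ⟨a, ha⟩ := TopologicalSpace.exists_dense_seq A
  let W : Set E := {ω | ω ∈ D.L1 ∧ D.IsState ω}
  have hWs : TopologicalSpace.IsSeparable W := D.L1_separable.mono fun x hx => hx.1
  have : TopologicalSpace.SeparableSpace W := hWs.separableSpace
  have : Nonempty W := ⟨⟨ω₀, hω, hω'⟩⟩
  obtain ⟨w, hw⟩ := TopologicalSpace.exists_dense_seq W
  obtain ⟨r⟩ := exists_run (R := R) a (fun k => (w k : E)) ω₀ fun n σ =>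
    exists_step hla hla1 hla2 hω hω' (fun k => (w k).2.2) hlh hlh1 hlh2 hlh3 a n σ
  refine r.condS ha hω' (fun k => (w k).2.2) fun ω h1 h2 ε hε => ?_
  obtain ⟨k, hk⟩ := hw.exists_dist_lt ⟨ω, h1, h2⟩ hε
  refine ⟨k, ?_⟩
  rw [Subtype.dist_eq, dist_eq_norm] at hk
  exact hk

theorem amenable_of_condS (D : QGroup A E) (R : Rep D.toConvData B) (h : D.CondS R) :
    D.Amenable ∧ R.Haagerup := by
  obtain ⟨μ, hst, h0, hadd, hw, hinv, hB⟩ := h
  obtain ⟨ω₀, hω, hω'⟩ := D.L1_state
  constructor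
  · refine ⟨map (fun t => μ t * ω₀) atTop, inferInstance, ?_, fun ω h1 h2 => ?_⟩
    · rw [eventually_map]
      filter_upwards [eventually_ge_atTop 0] with t ht
      exact ⟨D.L1_mul_left _ _ hω, D.state_mul _ _ (hst t ht) hω'⟩
    · rw [tendsto_map'_iff]
      refine squeeze_zero (fun t => norm_nonneg _) (fun t => ?_) (hinv ω h1 h2)
      change ‖ω * (μ t * ω₀) - μ t * ω₀‖ ≤ _
      have e : ω * (μ t * ω₀) - μ t * ω₀ = (ω * μ t - μ t) * ω₀ := by noncomm_ring
      rw [e]
      calc _ ≤ ‖ω * μ t - μ t‖ * ‖ω₀‖ := norm_mul_le _ _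
        _ = _ := by rw [hω'.1, mul_one]
  · have hpos : ∀ᶠ t : ℝ in 𝓝[>] 0, 0 < t := self_mem_nhdsWithin
    have hnear : map μ (𝓝[>] 0) ≤ D.nearUnit := by
      refine le_inf ?_ ?_
      · rw [← tendsto_iff_comap, tendsto_map'_iff, tendsto_pi_nhds]
        exact fun a => hw a
      · rw [le_principal_iff, mem_map]
        filter_upwards [hpos] with t ht
        exact hst t ht.le
    refine ⟨map μ (𝓝[>] 0), inferInstance, ?_, fun b => (R.strict_left b).mono_left hnear,
      fun b => (R.strict_right b).mono_left hnear⟩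
    rw [eventually_map]
    filter_upwards [hpos] with t ht
    exact ⟨hst t ht.le, hB t ht⟩

theorem main [TopologicalSpace.SeparableSpace A] (D : QGroup A E) (R : Rep D.toConvData B) :
    (D.Amenable ∧ R.Haagerup) ↔ D.CondS R :=
  ⟨fun h => condS_of_amenable D R h.1 h.2, amenable_of_condS D R⟩

end Pool.Agent.Helper57_QG
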