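import Pool.Agent.Helper57_QG.Stage

set_option autoImplicit false

open Filter Topology

namespace Pool.Agent.Helper57_QG

universe u

variable {A E B : Type u} [NonUnitalCStarAlgebra A] [NormedRing E] [NormedAlgebra ℂ E]
  [NonUnitalCStarAlgebra B]

/-- a full run of the construction -/
structure Run (D : QGroup A E) (R : Rep D.toConvData B) (a : ℕ → A) (w : ℕ → E) (ω₀ : E) where
  σ : ℕ → Stage D R
  d : ℕ → ℝ
  ρ : ℕ → E
  μ : ℕ → E
  cond : ∀ n, StepCond a w ω₀ n (σ n) (d n) (ρ n) (μ n)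
  G0 : (σ 0).G = 0
  Y0 : (σ 0).Y = 0
  G1 : ∀ n, (σ (n + 1)).G = (σ n).G + ((1 / ((n : ℝ) + 1) : ℝ) : ℂ) • (μ n - 1)
    + (d n : ℂ) • (ρ n - 1)
  Y1 : ∀ n, (σ (n + 1)).Y = (σ n).Y - ((1 / ((n : ℝ) + 1) : ℝ) : ℂ) • (1 : E)
    + (d n : ℂ) • (ρ n - 1)
  S1 : ∀ n, (σ (n + 1)).S = max (σ n).S ((n + 1) / d n)
  L1 : ∀ n, (σ (n + 1)).L = (σ n).L ∪ (fun r => ex (σ n).G r * ρ n) '' Set.Icc 0 ((n + 1) / d n)

theorem exists_run [CompleteSpace E] {D : QGroup A E} {R : Rep D.toConvData B} (a : ℕ → A)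
    (w : ℕ → E) (ω₀ : E)
    (h : ∀ (n : ℕ) (σ : Stage D R), ∃ (d : ℝ) (ρ μ : E), StepCond a w ω₀ n σ d ρ μ) :
    Nonempty (Run D R a w ω₀) := by
  choose d ρ μ hc using h
  let σ₀ : Stage D R :=
    { G := 0, Y := 0, S := 0, L := ∅, gen := Gen.zero
      ideal := by simp
      S0 := le_rfl
      Lc := isCompact_empty
      LL1 := by simp }
  let σ : ℕ → Stage D R := fun n => Nat.rec σ₀ (fun n σ => σ.next (hc n σ)) n
  exact ⟨{
    σ := σ
    d := fun n => d n (σ n)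
    ρ := fun n => ρ n (σ n)
    μ := fun n => μ n (σ n)
    cond := fun n => hc n (σ n)
    G0 := rfl
    Y0 := rfl
    G1 := fun n => rfl
    Y1 := fun n => rfl
    S1 := fun n => rfl
    L1 := fun n => rfl }⟩

namespace Run

variable {D : QGroup A E} {R : Rep D.toConvData B} {a : ℕ → A} {w : ℕ → E} {ω₀ : E}
  (r : Run D R a w ω₀)

/-- the generators -/
def G (n : ℕ) : E := (r.σ n).G

theorem d_le (n : ℕ) : r.d n ≤ (1 / 4) ^ n := by
  refine (r.cond n).d1.trans ?_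
  have := (r.σ n).S0
  exact div_le_self (by positivity) (by linarith)

theorem S_mono : Monotone fun n => (r.σ n).S :=
  monotone_nat_of_le_succ fun n => by rw [r.S1 n]; exact le_max_left _ _

theorem L_mono : Monotone fun n => (r.σ n).L :=
  monotone_nat_of_le_succ fun n => by rw [r.L1 n]; exact Set.subset_union_left

theorem gen (n : ℕ) : Gen D.toConvData (r.G n) := (r.σ n).gen

variable [CompleteSpace E]

theorem st (n : ℕ) {t : ℝ} (ht : 0 ≤ t) : D.IsState (ex (r.G n) t) := (r.gen n).isState_ex D ht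

omit [CompleteSpace E] in
/-- the increments of the generators -/
theorem G_succ_sub (n : ℕ) : r.G (n + 1) - r.G n =
    ((1 / ((n : ℝ) + 1) : ℝ) : ℂ) • (r.μ n - 1) + (r.d n : ℂ) • (r.ρ n - 1) := by
  rw [G, G, r.G1 n]
  abel

omit [CompleteSpace E] in
theorem c_le (n : ℕ) : 1 / ((n : ℝ) + 1) ≤ 1 := by
  rw [div_le_one (by positivity)]
  linarith [Nat.cast_nonneg (α := ℝ) n]

omit [CompleteSpace E] in
theorem norm_sub_one {μ : E} (hμ : D.IsState μ) : ‖μ - 1‖ ≤ 2 := by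
  calc ‖μ - 1‖ ≤ ‖μ‖ + ‖(1 : E)‖ := norm_sub_le _ _
    _ ≤ 1 + 1 := add_le_add hμ.1.le (norm_one_le D)
    _ = 2 := by norm_num

/-- estimate of the increments on slices -/
theorem slice_step (n k : ℕ) (hk : k ≤ n) {t : ℝ} (ht0 : 0 ≤ t) (ht : t ≤ n) :
    ‖Rm D.toConvData (ex (r.G (n + 1)) t) (a k) - Rm D.toConvData (ex (r.G n) t) (a k)‖
      ≤ ((1 / 2) ^ n + 2 * (1 / 4) ^ n * ‖a k‖) * t := by
  have hΛ := duhamel (F := E) (W := A)
    (((ContinuousLinearMap.apply ℂ A (a k)).comp (Rm D.toConvData)).restrictScalars ℝ)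
    (r.G (n + 1)) (r.G n) ht0 (C := (1 / 2) ^ n + 2 * (1 / 4) ^ n * ‖a k‖) ?_
  · simpa using hΛ
  intro s hs0 hs1
  change ‖Rm D.toConvData (ex (r.G (n + 1)) (t - s) * (r.G (n + 1) - r.G n) * ex (r.G n) s)
    (a k)‖ ≤ _
  rw [mul_assoc, Rm_mul, Rm_mul]
  set x := Rm D.toConvData (ex (r.G n) s) (a k) with hx
  have hxn : ‖x‖ ≤ ‖a k‖ := by
    have := Rm_norm_le D.toConvData (ex (r.G n) s) (a k)
    rwa [(r.st n hs0).1, one_mul] at this
  calc _ ≤ ‖ex (r.G (n + 1)) (t - s)‖ * ‖Rm D.toConvData (r.G (n + 1) - r.G n) x‖ :=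
        Rm_norm_le _ _ _
    _ = ‖Rm D.toConvData (r.G (n + 1) - r.G n) x‖ := by
        rw [(r.st (n + 1) (sub_nonneg.2 hs1)).1, one_mul]
    _ ≤ (1 / 2) ^ n + 2 * (1 / 4) ^ n * ‖a k‖ := by
        rw [r.G_succ_sub n, map_add, add_apply, map_smul, map_smul]
        refine (norm_add_le _ _).trans (add_le_add ?_ ?_)
        · change ‖(((1 / ((n : ℝ) + 1) : ℝ) : ℂ) • Rm D.toConvData (r.μ n - 1) x)‖ ≤ _
          rw [norm_smul, Complex.norm_real, Real.norm_of_nonneg (by positivity)]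
          have h1 := (r.cond n).sl k hk s hs0 (hs1.trans ht)
          calc _ ≤ 1 * ‖Rm D.toConvData (r.μ n - 1) x‖ := by
                gcongr
                exact c_le n
            _ ≤ _ := by rw [one_mul]; exact h1
        · change ‖((r.d n : ℂ) • Rm D.toConvData (r.ρ n - 1) x)‖ ≤ _
          rw [norm_smul, Complex.norm_real, Real.norm_of_nonneg (r.cond n).d0.le]
          calc _ ≤ (1 / 4) ^ n * (2 * ‖a k‖) := by
                gcongr
                · exact r.d_le n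
                · calc _ ≤ ‖r.ρ n - 1‖ * ‖x‖ := Rm_norm_le _ _ _
                    _ ≤ 2 * ‖a k‖ := by
                        gcongr
                        exact norm_sub_one (r.cond n).ρst
            _ = _ := by ring

/-- estimate of the increments on the reference state -/
theorem mass_step (n : ℕ) (hω₀ : ‖ω₀‖ ≤ 1) {t : ℝ} (ht0 : 0 ≤ t) (ht : t ≤ n) :
    ‖(ex (r.G (n + 1)) t) * ω₀ - (ex (r.G n) t) * ω₀‖ ≤ ((1 / 2) ^ n + 2 * (1 / 4) ^ n) * t := by
  have hΛ := duhamel (F := E) (W := E)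
    (((ContinuousLinearMap.mul ℂ E).flip ω₀).restrictScalars ℝ)
    (r.G (n + 1)) (r.G n) ht0 (C := (1 / 2) ^ n + 2 * (1 / 4) ^ n) ?_
  · simpa [sub_mul] using hΛ
  intro s hs0 hs1
  change ‖(ex (r.G (n + 1)) (t - s) * (r.G (n + 1) - r.G n) * ex (r.G n) s) * ω₀‖ ≤ _
  rw [mul_assoc, mul_assoc]
  set x := ex (r.G n) s * ω₀ with hx
  have hxn : ‖x‖ ≤ 1 := by
    calc _ ≤ ‖ex (r.G n) s‖ * ‖ω₀‖ := norm_mul_le _ _
      _ ≤ 1 * 1 := by
        gcongr
        exact (r.st n hs0).1.le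
      _ = 1 := one_mul _
  calc _ ≤ ‖ex (r.G (n + 1)) (t - s)‖ * ‖(r.G (n + 1) - r.G n) * x‖ := norm_mul_le _ _
    _ = ‖(r.G (n + 1) - r.G n) * x‖ := by
        rw [(r.st (n + 1) (sub_nonneg.2 hs1)).1, one_mul]
    _ ≤ (1 / 2) ^ n + 2 * (1 / 4) ^ n := by
        rw [r.G_succ_sub n, add_mul, smul_mul_assoc, smul_mul_assoc]
        refine (norm_add_le _ _).trans (add_le_add ?_ ?_)
        · rw [norm_smul, Complex.norm_real, Real.norm_of_nonneg (by positivity)]
          have h1 := (r.cond n).mass s hs0 (hs1.trans ht)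
          calc _ ≤ 1 * ‖(r.μ n - 1) * x‖ := by
                gcongr
                exact c_le n
            _ ≤ _ := by rw [one_mul]; exact h1
        · rw [norm_smul, Complex.norm_real, Real.norm_of_nonneg (r.cond n).d0.le]
          calc r.d n * ‖(r.ρ n - 1) * x‖ ≤ ((1 / 4) ^ n : ℝ) * (2 * 1) := by
                gcongr
                · exact r.d_le n
                · calc _ ≤ ‖r.ρ n - 1‖ * ‖x‖ := norm_mul_le _ _
                    _ ≤ 2 * 1 := by
                        gcongr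
                        exact norm_sub_one (r.cond n).ρst
            _ = 2 * (1 / 4) ^ n := by ring

end Run

end Pool.Agent.Helper57_QG
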