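import Pool.Agent.Helper57_QG.Run

set_option autoImplicit false

open Filter Topology

namespace Pool.Agent.Helper57_QG

universe u

variable {A E B : Type u} [NonUnitalCStarAlgebra A] [NormedRing E] [NormedAlgebra ℂ E]
  [NonUnitalCStarAlgebra B]

namespace Run

variable {D : QGroup A E} {R : Rep D.toConvData B} {a : ℕ → A} {w : ℕ → E} {ω₀ : E}
  (r : Run D R a w ω₀)

theorem jumps_gen (m j : ℕ) : Gen D.toConvData (r.G (m + j) - r.G m) := by
  induction j with
  | zero => simpa using Gen.zero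
  | succ j ih =>
    have e : r.G (m + (j + 1)) - r.G m = (r.G (m + j) - r.G m) +
        ((((1 / (((m + j : ℕ) : ℝ) + 1) : ℝ) : ℂ) • (r.μ (m + j) - 1)) +
        (r.d (m + j) : ℂ) • (r.ρ (m + j) - 1)) := by
      rw [← r.G_succ_sub (m + j), ← add_assoc]
      abel
    rw [e]
    exact ih.add ((Gen.jump (r.cond _).μst (by positivity)).add
      (Gen.jump (r.cond _).ρst (r.cond _).d0.le))

theorem jumps_norm (m j : ℕ) {x : E} (hx : x ∈ (r.σ m).L) (hx1 : ‖x‖ ≤ 1) :
    ‖(r.G (m + j) - r.G m) * x‖ ≤ 4 * ((1 / 4) ^ m - (1 / 4) ^ (m + j)) / (1 + (r.σ m).S) := by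
  have hS0 := (r.σ m).S0
  induction j with
  | zero => simp
  | succ j ih =>
    have e : r.G (m + (j + 1)) - r.G m = (r.G (m + j) - r.G m) +
        ((((1 / (((m + j : ℕ) : ℝ) + 1) : ℝ) : ℂ) • (r.μ (m + j) - 1)) +
        (r.d (m + j) : ℂ) • (r.ρ (m + j) - 1)) := by
      rw [← r.G_succ_sub (m + j), ← add_assoc]
      abel
    have hSm : (r.σ m).S ≤ (r.σ (m + j)).S := r.S_mono (Nat.le_add_right m j)
    have hLm : x ∈ (r.σ (m + j)).L := r.L_mono (Nat.le_add_right m j) hx
    have h1 : ‖(((1 / (((m + j : ℕ) : ℝ) + 1) : ℝ) : ℂ) • (r.μ (m + j) - 1)) * x‖ ≤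
        (1 / 4) ^ (m + j) / (1 + (r.σ m).S) := by
      rw [smul_mul_assoc, norm_smul, Complex.norm_real, Real.norm_of_nonneg (by positivity)]
      calc _ ≤ 1 * ((1 / 4) ^ (m + j) /
            (1 + max (r.σ (m + j)).S ((((m + j : ℕ) : ℝ) + 1) / r.d (m + j)))) := by
            gcongr
            · exact c_le _
            · exact (r.cond (m + j)).old x hLm
        _ ≤ _ := by
            rw [one_mul]
            gcongr
            exact hSm.trans (le_max_left _ _)
    have h2 : ‖((r.d (m + j) : ℂ) • (r.ρ (m + j) - 1)) * x‖ ≤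
        2 * ((1 / 4) ^ (m + j) / (1 + (r.σ m).S)) := by
      rw [smul_mul_assoc, norm_smul, Complex.norm_real, Real.norm_of_nonneg (r.cond _).d0.le]
      have h3 : r.d (m + j) ≤ (1 / 4) ^ (m + j) / (1 + (r.σ m).S) := by
        refine (r.cond (m + j)).d1.trans ?_
        gcongr
      have h4 : ‖(r.ρ (m + j) - 1) * x‖ ≤ 2 := by
        calc _ ≤ ‖r.ρ (m + j) - 1‖ * ‖x‖ := norm_mul_le _ _
          _ ≤ 2 * 1 := by
              gcongr
              exact norm_sub_one (r.cond _).ρst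
          _ = 2 := by norm_num
      calc _ ≤ ((1 / 4) ^ (m + j) / (1 + (r.σ m).S)) * 2 := by
            gcongr
        _ = _ := by ring
    rw [e, add_mul, add_mul]
    calc _ ≤ ‖(r.G (m + j) - r.G m) * x‖ +
          (‖(((1 / (((m + j : ℕ) : ℝ) + 1) : ℝ) : ℂ) • (r.μ (m + j) - 1)) * x‖ +
          ‖((r.d (m + j) : ℂ) • (r.ρ (m + j) - 1)) * x‖) :=
          (norm_add_le _ _).trans (add_le_add le_rfl (norm_add_le _ _))
      _ ≤ 4 * ((1 / 4) ^ m - (1 / 4) ^ (m + j)) / (1 + (r.σ m).S) +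
          ((1 / 4) ^ (m + j) / (1 + (r.σ m).S) + 2 * ((1 / 4) ^ (m + j) / (1 + (r.σ m).S))) := by
          gcongr
      _ = _ := by
          rw [← add_assoc m j 1, pow_succ]
          ring

/-- the error bound -/
noncomputable def θ (n : ℕ) : ℝ :=
  2 * Real.exp (-((n : ℝ) + 1)) + ((1 / 2) ^ n + 4 * (((n : ℝ) + 1) * (1 / 4) ^ n))

variable [CompleteSpace E]

theorem inv_bound (n j k : ℕ) (hk : k ≤ n) (hwk : D.IsState (w k)) {t : ℝ}
    (ht : (n + 1) / r.d n ≤ t) :
    ‖(w k - 1) * ex (r.G (n + 1 + j)) t‖ ≤ θ n := by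
  set d := r.d n with hd
  set S : ℝ := (n + 1) / d with hS
  set ρ := r.ρ n with hρ
  set μ := r.μ n with hμ
  have hd0 : 0 < d := (r.cond n).d0
  have hS0 : 0 ≤ S := by positivity
  have hdS : d * S = n + 1 := by
    rw [hS]
    field_simp
  set G := r.G (n + 1 + j) with hG
  set H := G - (d : ℂ) • (ρ - 1) with hH
  set Q := r.G (n + 1 + j) - r.G (n + 1) with hQ
  have hSS : S ≤ (r.σ (n + 1)).S := by
    rw [r.S1 n]
    exact le_max_right _ _
  have hS1 : 0 ≤ (r.σ (n + 1)).S := (r.σ (n + 1)).S0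
  have hHeq : H = r.G n + ((1 / ((n : ℝ) + 1) : ℝ) : ℂ) • (μ - 1) + Q := by
    have := r.G_succ_sub n
    rw [hH, hQ, ← hG]
    have e : G = r.G n + (r.G (n + 1) - r.G n) + (G - r.G (n + 1)) := by abel
    nth_rewrite 1 [e]
    rw [this]
    abel
  have hHgen : Gen D.toConvData H := by
    rw [hHeq]
    exact ((r.gen n).add (Gen.jump (r.cond n).μst (by positivity))).add (r.jumps_gen (n + 1) j)
  have hGH : G = H + (d : ℂ) • (ρ - 1) := by rw [hH]; abel
  -- comparison of the semigroups of `H` and `G_n` on `ρ`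
  have hcmp : ∀ s, 0 ≤ s → s ≤ S → ‖(ex H s - ex (r.G n) s) * ρ‖ ≤ 2 * (1 / 4) ^ n := by
    intro s hs0 hs1
    have h1 := duhamel (F := E) (W := E)
      (((ContinuousLinearMap.mul ℂ E).flip ρ).restrictScalars ℝ) H (r.G n) hs0
      (C := 2 * (1 / 4) ^ n / (1 + (r.σ (n + 1)).S)) (fun y hy0 hy1 => by
        change ‖(ex H (s - y) * (H - r.G n) * ex (r.G n) y) * ρ‖ ≤ _
        set x := ex (r.G n) y * ρ with hx
        have hxL : x ∈ (r.σ (n + 1)).L := by
          rw [r.L1 n]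
          exact Or.inr ⟨y, ⟨hy0, hy1.trans hs1⟩, rfl⟩
        have hx1 : ‖x‖ ≤ 1 := by
          calc _ ≤ ‖ex (r.G n) y‖ * ‖ρ‖ := norm_mul_le _ _
            _ = 1 := by rw [(r.st n hy0).1, (r.cond n).ρst.1, one_mul]
        have e : (ex H (s - y) * (H - r.G n) * ex (r.G n) y) * ρ =
            ex H (s - y) * (((1 / ((n : ℝ) + 1) : ℝ) : ℂ) • ((μ - 1) * x) + Q * x) := by
          rw [hHeq, hx, ← smul_mul_assoc]
          noncomm_ring
        rw [e]
        calc _ ≤ ‖ex H (s - y)‖ *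
              ‖((1 / ((n : ℝ) + 1) : ℝ) : ℂ) • ((μ - 1) * x) + Q * x‖ := norm_mul_le _ _
          _ = ‖((1 / ((n : ℝ) + 1) : ℝ) : ℂ) • ((μ - 1) * x) + Q * x‖ := by
              rw [(hHgen.isState_ex D (sub_nonneg.2 hy1)).1, one_mul]
          _ ≤ (1 / 4) ^ n / (1 + (r.σ (n + 1)).S) + (1 / 4) ^ n / (1 + (r.σ (n + 1)).S) := by
              refine (norm_add_le _ _).trans (add_le_add ?_ ?_)
              · rw [norm_smul, Complex.norm_real, Real.norm_of_nonneg (by positivity)]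
                have h2 := (r.cond n).new y hy0 (hy1.trans hs1)
                rw [← r.S1 n] at h2
                calc _ ≤ 1 * ‖(μ - 1) * x‖ := by gcongr; exact c_le n
                  _ ≤ _ := by rw [one_mul]; exact h2
              · refine (r.jumps_norm (n + 1) j hxL hx1).trans ?_
                gcongr
                have h5 : (0 : ℝ) < (1 / 4) ^ (n + 1 + j) := by positivity
                have h6 : (1 / 4 : ℝ) ^ (n + 1) = (1 / 4) ^ n * (1 / 4) := pow_succ _ _
                linarith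
          _ = _ := by ring)
    change ‖(ex H s - ex (r.G n) s) * ρ‖ ≤ _ at h1
    refine h1.trans ?_
    calc 2 * (1 / 4) ^ n / (1 + (r.σ (n + 1)).S) * s
        ≤ 2 * (1 / 4) ^ n / (1 + (r.σ (n + 1)).S) * (1 + (r.σ (n + 1)).S) := by
          gcongr
          linarith
      _ = 2 * (1 / 4) ^ n := by field_simp
  have hw2 : ‖w k - 1‖ ≤ 2 := norm_sub_one hwk
  have hinv : ∀ s, 0 ≤ s → s ≤ S → ‖(w k - 1) * (ex H s * ρ)‖ ≤
      (1 / 2) ^ n / (n + 2) + 4 * (1 / 4) ^ n := by
    intro s hs0 hs1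
    have e : (w k - 1) * (ex H s * ρ) = (w k - 1) * (ex (r.G n) s * ρ) +
        (w k - 1) * ((ex H s - ex (r.G n) s) * ρ) := by noncomm_ring
    rw [e]
    calc _ ≤ ‖(w k - 1) * (ex (r.G n) s * ρ)‖ + ‖(w k - 1) * ((ex H s - ex (r.G n) s) * ρ)‖ :=
          norm_add_le _ _
      _ ≤ (1 / 2) ^ n / (n + 2) + 2 * (2 * (1 / 4) ^ n) := by
          refine add_le_add ((r.cond n).inv k hk s hs0 hs1) ?_
          refine (norm_mul_le _ _).trans ?_
          gcongr
          exact hcmp s hs0 hs1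
      _ = _ := by ring
  -- the semigroup without the jumps `ρ`
  have hK : ∀ s, ex (H - (d : ℂ) • (1 : E)) s = (Real.exp (-(d * s)) : ℂ) • ex H s :=
    fun s => ex_sub_smul H d s
  set K := H - (d : ℂ) • (1 : E) with hKdef
  have hder : ∀ s, HasDerivAt (fun s => (w k - 1) * (ex K s * ex G (t - s)))
      ((w k - 1) * (-((d : ℂ) • (ex K s * ρ * ex G (t - s))))) s := by
    intro s
    have h1 := (hasDerivAt_ex K s).mul (hasDerivAt_ex_sub' G t s)
    have h2 := h1.const_mul (w k - 1)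
    have e : (w k - 1) * (-((d : ℂ) • (ex K s * ρ * ex G (t - s)))) =
        (w k - 1) * (ex K s * K * ex G (t - s) + ex K s * -(G * ex G (t - s))) := by
      congr 1
      have e1 : K = G - (d : ℂ) • ρ := by
        rw [hKdef, hGH, smul_sub]
        abel
      have e2 : ex K s * K * ex G (t - s) + ex K s * -(G * ex G (t - s)) =
          ex K s * (K - G) * ex G (t - s) := by noncomm_ring
      have e3 : K - G = -((d : ℂ) • ρ) := by rw [e1]; abel
      rw [e2, e3, mul_neg, neg_mul, mul_smul_comm, smul_mul_assoc]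
    rw [e]
    exact h2
  have hGst : ∀ s, 0 ≤ s → ‖ex G s‖ = 1 := fun s hs => (r.st _ hs).1
  have hm := mvt (T := S) (C := d * ((1 / 2) ^ n / (n + 2) + 4 * (1 / 4) ^ n)) hS0 hder
    (fun s hs0 hs1 => by
      have e : (w k - 1) * (-((d : ℂ) • (ex K s * ρ * ex G (t - s)))) =
          -((d : ℂ) • ((Real.exp (-(d * s)) : ℂ) •
            (((w k - 1) * (ex H s * ρ)) * ex G (t - s)))) := by
        rw [hK s, smul_mul_assoc, smul_mul_assoc, mul_neg, mul_smul_comm, mul_smul_comm]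
        simp only [mul_assoc]
      rw [e, norm_neg, norm_smul, norm_smul, Complex.norm_real, Complex.norm_real,
        Real.norm_of_nonneg hd0.le, Real.norm_of_nonneg (Real.exp_pos _).le]
      have h7 : Real.exp (-(d * s)) ≤ 1 := Real.exp_le_one_iff.2 (by nlinarith)
      calc _ ≤ d * (1 * (((1 / 2) ^ n / (n + 2) + 4 * (1 / 4) ^ n) * 1)) := by
            gcongr
            refine (norm_mul_le _ _).trans ?_
            gcongr
            · exact hinv s hs0 hs1
            · exact (hGst _ (by linarith)).le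
        _ = _ := by ring)
  simp only [ex_zero, one_mul, sub_zero] at hm
  have hend : ‖(w k - 1) * (ex K S * ex G (t - S))‖ ≤ 2 * Real.exp (-((n : ℝ) + 1)) := by
    rw [hK S, hdS]
    calc _ ≤ ‖w k - 1‖ * (‖(Real.exp (-((n : ℝ) + 1)) : ℂ) • ex H S‖ * ‖ex G (t - S)‖) :=
          (norm_mul_le _ _).trans (by gcongr; exact norm_mul_le _ _)
      _ ≤ 2 * (Real.exp (-((n : ℝ) + 1)) * 1) := by
          rw [norm_smul, Complex.norm_real, Real.norm_of_nonneg (Real.exp_pos _).le,
            (hHgen.isState_ex D hS0).1, mul_one, hGst _ (by linarith)]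
          gcongr
          exact (mul_one _).le
      _ = _ := by ring
  have hfin : ‖(w k - 1) * ex G t‖ ≤ ‖(w k - 1) * (ex K S * ex G (t - S))‖ +
      ‖(w k - 1) * (ex K S * ex G (t - S)) - (w k - 1) * ex G t‖ := by
    have e : (w k - 1) * ex G t = (w k - 1) * (ex K S * ex G (t - S)) -
      ((w k - 1) * (ex K S * ex G (t - S)) - (w k - 1) * ex G t) := by abel
    nth_rewrite 1 [e]
    exact norm_sub_le _ _
  refine hfin.trans ?_
  unfold θ
  refine add_le_add hend (hm.trans ?_)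
  have h8 : d * ((1 / 2) ^ n / (n + 2) + 4 * (1 / 4) ^ n) * S =
      ((n : ℝ) + 1) * ((1 / 2) ^ n / (n + 2) + 4 * (1 / 4) ^ n) := by
    rw [← hdS]; ring
  rw [h8]
  have h9 : ((n : ℝ) + 1) * ((1 / 2) ^ n / (n + 2)) ≤ (1 / 2) ^ n := by
    rw [mul_div_assoc', div_le_iff₀ (by positivity)]
    have : (0 : ℝ) < (1 / 2) ^ n := by positivity
    nlinarith
  calc _ = ((n : ℝ) + 1) * ((1 / 2) ^ n / (n + 2)) + 4 * (((n : ℝ) + 1) * (1 / 4) ^ n) := by ring
    _ ≤ _ := by gcongr

omit [CompleteSpace E] in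
theorem tendsto_θ : Tendsto θ atTop (𝓝 0) := by
  have h1 : Tendsto (fun n : ℕ => 2 * Real.exp (-((n : ℝ) + 1))) atTop (𝓝 (2 * 0)) := by
    refine Tendsto.const_mul 2 ?_
    exact Real.tendsto_exp_neg_atTop_nhds_zero.comp
      (tendsto_atTop_add_const_right atTop (1 : ℝ) tendsto_natCast_atTop_atTop)
  have h2 : Tendsto (fun n : ℕ => (1 / 2 : ℝ) ^ n) atTop (𝓝 0) :=
    tendsto_pow_atTop_nhds_zero_of_lt_one (by norm_num) (by norm_num)
  have h3 : Tendsto (fun n : ℕ => (n : ℝ) * (1 / 4 : ℝ) ^ n) atTop (𝓝 0) :=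
    tendsto_self_mul_const_pow_of_lt_one (by norm_num) (by norm_num)
  have h4 : Tendsto (fun n : ℕ => (1 / 4 : ℝ) ^ n) atTop (𝓝 0) :=
    tendsto_pow_atTop_nhds_zero_of_lt_one (by norm_num) (by norm_num)
  have h5 := h1.add (h2.add ((h3.add h4).const_mul 4))
  simp only [mul_zero, add_zero] at h5
  refine h5.congr fun n => ?_
  unfold θ
  ring

end Run

end Pool.Agent.Helper57_QG
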