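import Pool.Agent.Helper57_QG.Run

set_option autoImplicit false

open Filter Topology

namespace Pool.Agent.Helper57_QG

universe u

variable {A E B : Type u} [NonUnitalCStarAlgebra A] [NormedRing E] [NormedAlgebra ℂ E]
  [NonUnitalCStarAlgebra B]

namespace Run

variable {D : QGroup A E} {R : Rep D.toConvData B} {a : ℕ → A} {w : ℕ → E} {ω₀ : E}
  (r : Run D R a w ω₀)

/-- partial sums of the harmonic series -/
noncomputable def Cs (n : ℕ) : ℝ := ∑ m ∈ Finset.range n, 1 / ((m : ℝ) + 1)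

theorem log_le_Cs (n : ℕ) : Real.log (n + 1) ≤ Cs n := by
  have h := log_add_one_le_harmonic n
  have h2 : ((harmonic n : ℚ) : ℝ) = Cs n := by
    unfold harmonic Cs
    push_cast
    refine Finset.sum_congr rfl fun m _ => ?_
    rw [one_div]
  rw [h2] at h
  exact_mod_cast h

theorem Y_eq (n : ℕ) : ∃ Z : E, Gen D.toConvData Z ∧ (r.σ n).Y = Z - (Cs n : ℂ) • (1 : E) := by
  induction n with
  | zero => exact ⟨0, Gen.zero, by simp [r.Y0, Cs]⟩
  | succ n ih =>
    obtain ⟨Z, hZ, hY⟩ := ih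
    refine ⟨Z + (r.d n : ℂ) • (r.ρ n - 1), hZ.add (Gen.jump (r.cond n).ρst (r.cond n).d0.le), ?_⟩
    rw [r.Y1 n, hY]
    have : Cs (n + 1) = Cs n + 1 / ((n : ℝ) + 1) := Finset.sum_range_succ _ _
    rw [this, Complex.ofReal_add, add_smul]
    abel

variable [CompleteSpace E]

theorem norm_ex_Y (n : ℕ) {t : ℝ} (ht : 0 ≤ t) : ‖ex (r.σ n).Y t‖ ≤ Real.exp (-(Cs n * t)) := by
  obtain ⟨Z, hZ, hY⟩ := r.Y_eq n
  rw [hY, ex_sub_smul, norm_smul, Complex.norm_real, Real.norm_of_nonneg (Real.exp_pos _).le,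
    (hZ.isState_ex D ht).1, mul_one]

theorem norm_ex_Y' (n : ℕ) {h t : ℝ} (hh : 0 ≤ h) (ht : h ≤ t) :
    ‖ex (r.σ n).Y t‖ ≤ ((n : ℝ) + 1) ^ (-h) := by
  refine (r.norm_ex_Y n (hh.trans ht)).trans ?_
  have hn : (0 : ℝ) < (n : ℝ) + 1 := by positivity
  rw [Real.rpow_def_of_pos hn]
  apply Real.exp_le_exp.2
  have h1 := log_le_Cs n
  have h2 : 0 ≤ Real.log ((n : ℝ) + 1) := Real.log_nonneg (by linarith [Nat.cast_nonneg (α := ℝ) n])
  nlinarith

theorem T_st (n : ℕ) {t : ℝ} (ht : 0 ≤ t) : ‖ex (R.T (r.G n)) t‖ ≤ 1 := by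
  rw [← T_ex]
  exact (R.norm_le _).trans (r.st n ht).1.le

omit [CompleteSpace E] in
theorem T_sub_one {μ : E} (hμ : D.IsState μ) :
    ‖R.T μ - 1‖ ≤ 1 + ‖(1 : DoubleCentralizer ℂ B)‖ := by
  calc _ ≤ ‖R.T μ‖ + ‖(1 : DoubleCentralizer ℂ B)‖ := norm_sub_le _ _
    _ ≤ _ := by gcongr; exact (R.norm_le μ).trans hμ.1.le

/-- the bound for the increments multiplied by an old operator -/
noncomputable def q (B : Type u) [NonUnitalCStarAlgebra B] (h : ℝ) (n : ℕ) : ℝ :=
  (1 / 2) ^ n + (1 + ‖(1 : DoubleCentralizer ℂ B)‖) * (1 / ((n : ℝ) + 1) ^ (1 + h)) +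
    (1 + ‖(1 : DoubleCentralizer ℂ B)‖) * (1 / 4) ^ n

theorem q_aux (n : ℕ) {h s : ℝ} (hh : 0 ≤ h) (hs : h ≤ s)
    {X : DoubleCentralizer ℂ B} (M : ℝ) (hM : 0 ≤ M)
    (hX : ‖X‖ ≤ (1 / ((n : ℝ) + 1)) * ((1 / 2) ^ n + M * ‖ex (r.σ n).Y s‖) + (1 / 4) ^ n * M) :
    ‖X‖ ≤ (1 / 2) ^ n + M * (1 / ((n : ℝ) + 1) ^ (1 + h)) + M * (1 / 4) ^ n := by
  refine hX.trans ?_
  have h1 := r.norm_ex_Y' n hh hs
  have hn : (0 : ℝ) < (n : ℝ) + 1 := by positivity
  have h2 : (1 / ((n : ℝ) + 1)) * ((n : ℝ) + 1) ^ (-h) = 1 / ((n : ℝ) + 1) ^ (1 + h) := by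
    rw [Real.rpow_neg hn.le, Real.rpow_add hn, Real.rpow_one]
    field_simp
  have h3 : (1 / ((n : ℝ) + 1)) * (1 / 2 : ℝ) ^ n ≤ (1 / 2) ^ n := by
    calc _ ≤ 1 * (1 / 2 : ℝ) ^ n := by gcongr; exact c_le n
      _ = _ := one_mul _
  calc _ ≤ (1 / ((n : ℝ) + 1)) * ((1 / 2) ^ n + M * ((n : ℝ) + 1) ^ (-h)) + (1 / 4) ^ n * M := by
        gcongr
    _ = (1 / ((n : ℝ) + 1)) * (1 / 2) ^ n + M * ((1 / ((n : ℝ) + 1)) * ((n : ℝ) + 1) ^ (-h))
        + M * (1 / 4) ^ n := by ring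
    _ ≤ _ := by rw [h2]; gcongr

theorem T_left (n : ℕ) {h s : ℝ} (hh : 0 ≤ h) (hs : h ≤ s) (hsn : s ≤ n) :
    ‖(R.T (r.G (n + 1)) - R.T (r.G n)) * ex (R.T (r.G n)) s‖ ≤ q B h n := by
  have hs0 : 0 ≤ s := hh.trans hs
  refine r.q_aux n hh hs _ (by positivity) ?_
  rw [← map_sub, r.G_succ_sub n, map_add, map_smul, map_smul, add_mul, smul_mul_assoc,
    smul_mul_assoc, map_sub, map_sub, map_one]
  refine (norm_add_le _ _).trans (add_le_add ?_ ?_)
  · rw [norm_smul, Complex.norm_real, Real.norm_of_nonneg (by positivity)]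
    gcongr
    have e : (R.T (r.μ n) - 1) * ex (R.T (r.G n)) s =
        (R.T (r.μ n) - 1) * (ex (R.T (r.G n)) s - ex (R.T (r.σ n).Y) s)
        + (R.T (r.μ n) - 1) * ex (R.T (r.σ n).Y) s := by noncomm_ring
    rw [e]
    refine (norm_add_le _ _).trans (add_le_add ((r.cond n).left s hs0 hsn) ?_)
    refine (norm_mul_le _ _).trans ?_
    gcongr
    · exact T_sub_one (r.cond n).μst
    · rw [← T_ex]
      exact R.norm_le _
  · rw [norm_smul, Complex.norm_real, Real.norm_of_nonneg (r.cond n).d0.le]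
    gcongr
    · exact r.d_le n
    · refine (norm_mul_le _ _).trans ?_
      calc _ ≤ (1 + ‖(1 : DoubleCentralizer ℂ B)‖) * 1 := by
            gcongr
            · exact T_sub_one (r.cond n).ρst
            · exact r.T_st n hs0
        _ = _ := mul_one _

theorem T_right (n : ℕ) {h s : ℝ} (hh : 0 ≤ h) (hs : h ≤ s) (hsn : s ≤ n) :
    ‖ex (R.T (r.G n)) s * (R.T (r.G (n + 1)) - R.T (r.G n))‖ ≤ q B h n := by
  have hs0 : 0 ≤ s := hh.trans hs
  refine r.q_aux n hh hs _ (by positivity) ?_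
  rw [← map_sub, r.G_succ_sub n, map_add, map_smul, map_smul, mul_add, mul_smul_comm,
    mul_smul_comm, map_sub, map_sub, map_one]
  refine (norm_add_le _ _).trans (add_le_add ?_ ?_)
  · rw [norm_smul, Complex.norm_real, Real.norm_of_nonneg (by positivity)]
    gcongr
    have e : ex (R.T (r.G n)) s * (R.T (r.μ n) - 1) =
        (ex (R.T (r.G n)) s - ex (R.T (r.σ n).Y) s) * (R.T (r.μ n) - 1)
        + ex (R.T (r.σ n).Y) s * (R.T (r.μ n) - 1) := by noncomm_ring
    rw [e]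
    refine (norm_add_le _ _).trans (add_le_add ((r.cond n).right s hs0 hsn) ?_)
    refine (norm_mul_le _ _).trans ?_
    rw [mul_comm]
    gcongr
    · exact T_sub_one (r.cond n).μst
    · rw [← T_ex]
      exact R.norm_le _
  · rw [norm_smul, Complex.norm_real, Real.norm_of_nonneg (r.cond n).d0.le]
    gcongr
    · exact r.d_le n
    · refine (norm_mul_le _ _).trans ?_
      calc _ ≤ 1 * (1 + ‖(1 : DoubleCentralizer ℂ B)‖) := by
            gcongr
            · exact r.T_st n hs0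
            · exact T_sub_one (r.cond n).ρst
        _ = _ := one_mul _

omit [CompleteSpace E] in
theorem T_incr (n : ℕ) : ‖R.T (r.G (n + 1)) - R.T (r.G n)‖ ≤
    (1 + ‖(1 : DoubleCentralizer ℂ B)‖) * (2 / ((n : ℝ) + 1)) := by
  have h4 : (1 / 4 : ℝ) ^ n ≤ 1 / ((n : ℝ) + 1) := by
    rw [one_div_pow]
    apply one_div_le_one_div_of_le (by positivity)
    have : n + 1 ≤ 4 ^ n := by
      have h : n < 4 ^ n := Nat.lt_pow_self (by norm_num)
      omega
    exact_mod_cast this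
  rw [← map_sub, r.G_succ_sub n, map_add, map_smul, map_smul, map_sub, map_sub, map_one]
  calc _ ≤ _ := norm_add_le _ _
    _ ≤ (1 / ((n : ℝ) + 1)) * (1 + ‖(1 : DoubleCentralizer ℂ B)‖) +
        (1 / ((n : ℝ) + 1)) * (1 + ‖(1 : DoubleCentralizer ℂ B)‖) := by
        refine add_le_add ?_ ?_
        · rw [norm_smul, Complex.norm_real, Real.norm_of_nonneg (by positivity)]
          gcongr
          exact T_sub_one (r.cond n).μst
        · rw [norm_smul, Complex.norm_real, Real.norm_of_nonneg (r.cond n).d0.le]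
          gcongr
          · exact (r.d_le n).trans h4
          · exact T_sub_one (r.cond n).ρst
    _ = _ := by ring

theorem T_step (n : ℕ) {t : ℝ} (ht0 : 0 ≤ t) (ht : t ≤ n) :
    ‖R.T (ex (r.G (n + 1)) t) - R.T (ex (r.G n) t)‖ ≤
      2 * (q B (t / 2) n * (t / 2)) +
        ((1 + ‖(1 : DoubleCentralizer ℂ B)‖) * (2 / ((n : ℝ) + 1)) * (t / 2)) ^ 2 := by
  rw [T_ex, T_ex]
  set X := R.T (r.G (n + 1)) with hX
  set Y := R.T (r.G n) with hY
  set M := 1 + ‖(1 : DoubleCentralizer ℂ B)‖ with hM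
  set h := t / 2 with hh
  have hh0 : 0 ≤ h := by positivity
  have htt : t = h + h := by rw [hh]; ring
  have hXs : ∀ s, 0 ≤ s → ‖ex X s‖ ≤ 1 := fun s hs => r.T_st (n + 1) hs
  have hYs : ∀ s, 0 ≤ s → ‖ex Y s‖ ≤ 1 := fun s hs => r.T_st n hs
  -- D
  have h1 : ‖ex X h - ex Y h‖ ≤ M * (2 / ((n : ℝ) + 1)) * h := by
    have := duhamel (F := DoubleCentralizer ℂ B) (ContinuousLinearMap.id ℝ _) X Y hh0
      (C := M * (2 / ((n : ℝ) + 1))) (fun s hs0 hs1 => by
        change ‖ex X (h - s) * (X - Y) * ex Y s‖ ≤ _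
        calc _ ≤ ‖ex X (h - s) * (X - Y)‖ * ‖ex Y s‖ := norm_mul_le _ _
          _ ≤ (‖ex X (h - s)‖ * ‖X - Y‖) * ‖ex Y s‖ := by gcongr; exact norm_mul_le _ _
          _ ≤ (1 * (M * (2 / ((n : ℝ) + 1)))) * 1 := by
              gcongr
              · exact hXs _ (sub_nonneg.2 hs1)
              · exact r.T_incr n
              · exact hYs _ hs0
          _ = _ := by ring)
    exact this
  -- D * U_h
  have h2 : ‖(ex X h - ex Y h) * ex Y h‖ ≤ q B h n * h := by
    have := duhamel (F := DoubleCentralizer ℂ B)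
      (((ContinuousLinearMap.mul ℂ (DoubleCentralizer ℂ B)).flip (ex Y h)).restrictScalars ℝ)
      X Y hh0 (C := q B h n) (fun s hs0 hs1 => by
        change ‖(ex X (h - s) * (X - Y) * ex Y s) * ex Y h‖ ≤ _
        have e : (ex X (h - s) * (X - Y) * ex Y s) * ex Y h =
            ex X (h - s) * ((X - Y) * ex Y (s + h)) := by
          rw [ex_add]; noncomm_ring
        rw [e]
        calc _ ≤ ‖ex X (h - s)‖ * ‖(X - Y) * ex Y (s + h)‖ := norm_mul_le _ _
          _ ≤ 1 * q B h n := by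
              gcongr
              · exact hXs _ (sub_nonneg.2 hs1)
              · exact r.T_left n hh0 (by linarith) (by linarith)
          _ = _ := one_mul _)
    exact this
  -- U_h * D
  have h3 : ‖ex Y h * (ex X h - ex Y h)‖ ≤ q B h n * h := by
    have := duhamel (F := DoubleCentralizer ℂ B)
      ((ContinuousLinearMap.mul ℂ (DoubleCentralizer ℂ B) (ex Y h)).restrictScalars ℝ)
      Y X hh0 (C := q B h n) (fun s hs0 hs1 => by
        change ‖ex Y h * (ex Y (h - s) * (Y - X) * ex X s)‖ ≤ _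
        have e : ex Y h * (ex Y (h - s) * (Y - X) * ex X s) =
            -((ex Y (h + (h - s)) * (X - Y)) * ex X s) := by
          rw [ex_add]; noncomm_ring
        rw [e, norm_neg]
        calc _ ≤ ‖ex Y (h + (h - s)) * (X - Y)‖ * ‖ex X s‖ := norm_mul_le _ _
          _ ≤ q B h n * 1 := by
              gcongr
              · exact (norm_nonneg _).trans (r.T_right n hh0 le_rfl (by linarith))
              · exact r.T_right n hh0 (by linarith) (by linarith)
              · exact hXs _ hs0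
          _ = _ := mul_one _)
    have e : ex Y h * (ex X h - ex Y h) = -(ex Y h * (ex Y h - ex X h)) := by noncomm_ring
    rw [e, norm_neg]
    exact this
  have e : ex X t - ex Y t = ex Y h * (ex X h - ex Y h) + (ex X h - ex Y h) * (ex X h - ex Y h)
      + (ex X h - ex Y h) * ex Y h := by
    rw [htt, ex_add, ex_add]
    noncomm_ring
  rw [e]
  calc _ ≤ ‖ex Y h * (ex X h - ex Y h)‖ + ‖(ex X h - ex Y h) * (ex X h - ex Y h)‖
        + ‖(ex X h - ex Y h) * ex Y h‖ := norm_add₃_le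
    _ ≤ q B h n * h + (M * (2 / ((n : ℝ) + 1)) * h) ^ 2 + q B h n * h := by
        gcongr
        calc _ ≤ ‖ex X h - ex Y h‖ * ‖ex X h - ex Y h‖ := norm_mul_le _ _
          _ = ‖ex X h - ex Y h‖ ^ 2 := (sq _).symm
          _ ≤ _ := by gcongr
    _ = _ := by ring

omit [CompleteSpace E] in
theorem summable_bound {t : ℝ} (ht : 0 < t) : Summable fun n : ℕ =>
    2 * (q B (t / 2) n * (t / 2)) +
      ((1 + ‖(1 : DoubleCentralizer ℂ B)‖) * (2 / ((n : ℝ) + 1)) * (t / 2)) ^ 2 := by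
  have h1 : Summable fun n : ℕ => (1 / 2 : ℝ) ^ n := summable_geometric_two
  have h2 : Summable fun n : ℕ => (1 / 4 : ℝ) ^ n :=
    summable_geometric_of_lt_one (by norm_num) (by norm_num)
  have h3 : Summable fun n : ℕ => 1 / ((n : ℝ) + 1) ^ (1 + t / 2) := by
    have h := (Real.summable_one_div_nat_rpow (p := 1 + t / 2)).2 (by linarith)
    have := (summable_nat_add_iff 1).2 h
    exact_mod_cast this
  have h4 : Summable fun n : ℕ => 1 / ((n : ℝ) + 1) ^ 2 := by
    have h := (Real.summable_one_div_nat_pow (p := 2)).2 (by norm_num)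
    have := (summable_nat_add_iff 1).2 h
    exact_mod_cast this
  have h5 : Summable fun n : ℕ => 2 * (q B (t / 2) n * (t / 2)) := by
    unfold q
    exact (((h1.add (h3.mul_left _)).add (h2.mul_left _)).mul_right _).mul_left _
  refine h5.add ?_
  have h6 := h4.mul_left (((1 + ‖(1 : DoubleCentralizer ℂ B)‖) * 2 * (t / 2)) ^ 2)
  refine h6.congr fun n => ?_
  field_simp

theorem T_lim {t : ℝ} (ht : 0 < t) :
    ∃ x ∈ Bid B, Tendsto (fun n => R.T (ex (r.G n) t)) atTop (𝓝 x) := by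
  obtain ⟨N, hN⟩ := exists_nat_ge t
  have hc : CauchySeq fun n => R.T (ex (r.G (n + N)) t) := by
    refine cauchySeq_of_dist_le_of_summable _ (fun n => ?_)
      ((summable_nat_add_iff N).2 (summable_bound (B := B) ht))
    rw [dist_comm, dist_eq_norm]
    have : n.succ + N = (n + N) + 1 := by omega
    rw [this]
    refine r.T_step (n + N) ht.le ?_
    push_cast
    linarith [Nat.cast_nonneg (α := ℝ) n]
  obtain ⟨x, hx⟩ := cauchySeq_tendsto_of_complete hc
  have hx' : Tendsto (fun n => R.T (ex (r.G n) t)) atTop (𝓝 x) :=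
    (tendsto_add_atTop_iff_nat N).1 hx
  refine ⟨x, ?_, hx'⟩
  -- the remainder tends to zero
  have h1 : Tendsto (fun n => R.T (ex (r.σ n).Y t)) atTop (𝓝 0) := by
    rw [tendsto_zero_iff_norm_tendsto_zero]
    have hb : ∀ n : ℕ, ‖R.T (ex (r.σ n).Y t)‖ ≤ ((n : ℝ) + 1) ^ (-t) := fun n =>
      (R.norm_le _).trans (r.norm_ex_Y' n ht.le le_rfl)
    have hlim : Tendsto (fun n : ℕ => ((n : ℝ) + 1) ^ (-t)) atTop (𝓝 0) := by
      have h2 := (tendsto_rpow_neg_atTop ht).comp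
        (tendsto_atTop_add_const_right atTop (1 : ℝ) tendsto_natCast_atTop_atTop)
      exact h2
    exact squeeze_zero (fun n => norm_nonneg _) hb hlim
  have h2 := hx'.sub h1
  rw [sub_zero] at h2
  refine isClosed_Bid.mem_of_tendsto h2 (Eventually.of_forall fun n => ?_)
  have h3 := ex_sub_ex_mem (x := R.T ((r.σ n).G - (r.σ n).Y)) (y := R.T (r.σ n).Y)
    (r.σ n).ideal t
  rw [map_sub, sub_add_cancel, ← T_ex, ← T_ex] at h3
  exact h3

end Run

end Pool.Agent.Helper57_QG
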