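import Pool.Agent.Helper57_QG.Ideal

set_option autoImplicit false

open Filter Topology

namespace Pool.Agent.Helper57_QG

universe u

theorem weak_re {ι X : Type*} [NormedAddCommGroup X] [NormedSpace ℂ X] {l : Filter ι}
    {u : ι → X} {x : X} (h : ∀ f : X →L[ℂ] ℂ, Tendsto (fun i => f (u i)) l (𝓝 (f x)))
    (g : X →L[ℝ] ℝ) : Tendsto (fun i => g (u i)) l (𝓝 (g x)) := by
  have h1 := h (StrongDual.extendRCLike (𝕜 := ℂ) g)
  have h2 := (Complex.continuous_re.tendsto _).comp h1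
  have h3 : ∀ y : X, (StrongDual.extendRCLike (𝕜 := ℂ) g y).re = g y := fun y =>
    StrongDual.re_extendRCLike_apply (𝕜 := ℂ) g y
  simp only [Function.comp_def, h3] at h2
  exact h2

theorem weak_pi {ι κ X : Type*} [Finite κ] [NormedAddCommGroup X] [NormedSpace ℝ X] {l : Filter ι}
    {u : ι → κ → X} {x : κ → X}
    (h : ∀ j, ∀ f : X →L[ℝ] ℝ, Tendsto (fun i => f (u i j)) l (𝓝 (f (x j))))
    (g : (κ → X) →L[ℝ] ℝ) : Tendsto (fun i => g (u i)) l (𝓝 (g x)) := by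
  classical
  have _ := Fintype.ofFinite κ
  have e : ∀ v : κ → X, g v = ∑ j, (g.comp (ContinuousLinearMap.single ℝ (fun _ => X) j)) (v j) := by
    intro v
    conv_lhs => rw [← Finset.univ_sum_single v]
    rw [map_sum]
    rfl
  rw [e x]
  simp_rw [e]
  exact tendsto_finsetSum _ fun j _ => h j _

theorem weak_prod {ι X Y : Type*} [NormedAddCommGroup X] [NormedSpace ℝ X]
    [NormedAddCommGroup Y] [NormedSpace ℝ Y] {l : Filter ι}
    {u : ι → X} {x : X} {v : ι → Y} {y : Y}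
    (h : ∀ f : X →L[ℝ] ℝ, Tendsto (fun i => f (u i)) l (𝓝 (f x)))
    (h' : ∀ f : Y →L[ℝ] ℝ, Tendsto (fun i => f (v i)) l (𝓝 (f y)))
    (g : X × Y →L[ℝ] ℝ) : Tendsto (fun i => g (u i, v i)) l (𝓝 (g (x, y))) := by
  have e : ∀ (a : X) (b : Y), g (a, b) = (g.comp (ContinuousLinearMap.inl ℝ X Y)) a +
      (g.comp (ContinuousLinearMap.inr ℝ X Y)) b := by
    intro a b
    simp only [ContinuousLinearMap.comp_apply, ContinuousLinearMap.inl_apply,
      ContinuousLinearMap.inr_apply, ← map_add]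
    simp
  rw [e]
  simp_rw [e]
  exact (h _).add (h' _)

variable {A E B : Type u} [NonUnitalCStarAlgebra A] [NormedRing E] [NormedAlgebra ℂ E]
  [NonUnitalCStarAlgebra B]

/-- states form a convex set -/
theorem IsState.combo {D : ConvData A E} {μ ν : E} (hμ : D.IsState μ) (hν : D.IsState ν)
    {a b : ℝ} (ha : 0 ≤ a) (hb : 0 ≤ b) (hab : a + b = 1) : D.IsState (a • μ + b • ν) := by
  have e : ∀ (c : ℝ) (x : E), c • x = (c : ℂ) • x := fun c x => by
    rw [Complex.coe_smul]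
  rw [e, e]
  have h1 : PosE D ((a : ℂ) • μ) := PosE.smul hμ.2 ha
  have h2 : PosE D ((b : ℂ) • ν) := PosE.smul hν.2 hb
  refine ⟨?_, h1.add h2⟩
  rw [h1.norm_add h2, norm_csmul ha, norm_csmul hb, hμ.1, hν.1]
  linarith

theorem exists_weak (D : QGroup A E) {l : Filter E} [l.NeBot] (hl : l ≤ D.nearUnit)
    {U : Set E} (hU : Convex ℝ U) (hUl : U ∈ l) (hUs : ∀ μ ∈ U, D.IsState μ)
    {K : Set E} (hK : IsCompact K) (hK1 : ∀ x ∈ K, x ∈ D.L1) {K' : Set A} (hK' : IsCompact K')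
    {δ : ℝ} (hδ : 0 < δ) :
    ∃ μ ∈ U, (∀ x ∈ K, ‖(μ - 1) * x‖ ≤ δ) ∧ (∀ y ∈ K', ‖Rm D.toConvData (μ - 1) y‖ ≤ δ) := by
  have hδ4 : 0 < δ / 4 := by positivity
  obtain ⟨t, ht, htf, hcov⟩ := hK.finite_cover_balls hδ4
  obtain ⟨t', ht', htf', hcov'⟩ := hK'.finite_cover_balls hδ4
  have _ := htf.to_subtype
  have _ := htf'.to_subtype
  have _ := Fintype.ofFinite t
  have _ := Fintype.ofFinite t'
  let Ψ : E →ₗ[ℝ] (t → E) × (t' → A) :=
    { toFun := fun μ => (fun j => μ * (j : E), fun i => Rm D.toConvData μ (i : A))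
      map_add' := fun μ ν => by
        ext
        · simp [add_mul]
        · simp [map_add]
      map_smul' := fun c μ => by
        ext
        · simp
        · have : (c • μ : E) = ((c : ℂ) • μ : E) := by rw [Complex.coe_smul]
          simp only [this, map_smul, smul_apply]
          simp }
  have hΨ : ∀ μ, Ψ μ = (fun j : t => μ * (j : E), fun i : t' => Rm D.toConvData μ (i : A)) :=
    fun μ => rfl
  obtain ⟨μ, hμU, hμ⟩ := mazur hU hUl Ψ (Ψ 1) (by
    intro f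
    simp only [hΨ]
    refine weak_prod (weak_pi fun j => weak_re fun g => ?_) (weak_pi fun i => weak_re fun g => ?_) f
    · rw [one_mul]
      exact (D.L1_tendsto (j : E) (hK1 _ (ht j.2)) g).mono_left hl
    · have e : ∀ μ : E, g (Rm D.toConvData μ (i : A)) =
          D.pair μ (Lm D.toConvData (D.pair.symm g) (i : A)) := by
        intro μ
        rw [pair_Lm, ← pair_Rm, LinearIsometryEquiv.apply_symm_apply]
      simp_rw [e]
      have h1 : Tendsto (fun (μ : E) (a : A) => D.pair μ a) D.nearUnit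
          (𝓝 (fun a : A => D.pair 1 a)) := (tendsto_iff_comap.2 inf_le_left)
      rw [tendsto_pi_nhds] at h1
      exact (h1 _).mono_left hl) (half_pos hδ)
  have hsub : ∀ μ' : E, Ψ μ' - Ψ 1 = (fun j : t => (μ' - 1) * (j : E),
      fun i : t' => Rm D.toConvData (μ' - 1) (i : A)) := by
    intro μ'
    rw [hΨ, hΨ]
    ext
    · simp [sub_mul]
    · simp
  rw [hsub, Prod.norm_def, max_le_iff] at hμ
  have hst := hUs μ hμU
  have hn2 : ‖μ - 1‖ ≤ 2 := by
    calc ‖μ - 1‖ ≤ ‖μ‖ + ‖(1 : E)‖ := norm_sub_le _ _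
      _ ≤ 1 + 1 := add_le_add hst.1.le D.counit_state.1.le
      _ = 2 := by norm_num
  refine ⟨μ, hμU, fun x hx => ?_, fun y hy => ?_⟩
  · obtain ⟨z, hz, hxz⟩ := Set.mem_iUnion₂.1 (hcov hx)
    rw [Metric.mem_ball, dist_eq_norm] at hxz
    have h1 : ‖(μ - 1) * z‖ ≤ δ / 2 := (norm_le_pi_norm _ (⟨z, hz⟩ : t)).trans hμ.1
    calc ‖(μ - 1) * x‖ = ‖(μ - 1) * (x - z) + (μ - 1) * z‖ := by rw [← mul_add, sub_add_cancel]
      _ ≤ ‖(μ - 1) * (x - z)‖ + ‖(μ - 1) * z‖ := norm_add_le _ _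
      _ ≤ ‖μ - 1‖ * ‖x - z‖ + δ / 2 := add_le_add (norm_mul_le _ _) h1
      _ ≤ 2 * (δ / 4) + δ / 2 := by gcongr
      _ = δ := by ring
  · obtain ⟨z, hz, hyz⟩ := Set.mem_iUnion₂.1 (hcov' hy)
    rw [Metric.mem_ball, dist_eq_norm] at hyz
    have h1 : ‖Rm D.toConvData (μ - 1) z‖ ≤ δ / 2 :=
      (norm_le_pi_norm _ (⟨z, hz⟩ : t')).trans hμ.2
    calc ‖Rm D.toConvData (μ - 1) y‖
        = ‖Rm D.toConvData (μ - 1) (y - z) + Rm D.toConvData (μ - 1) z‖ := by
          rw [← map_add, sub_add_cancel]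
      _ ≤ ‖Rm D.toConvData (μ - 1) (y - z)‖ + ‖Rm D.toConvData (μ - 1) z‖ := norm_add_le _ _
      _ ≤ ‖μ - 1‖ * ‖y - z‖ + δ / 2 := add_le_add (Rm_norm_le _ _ _) h1
      _ ≤ 2 * (δ / 4) + δ / 2 := by gcongr
      _ = δ := by ring

end Pool.Agent.Helper57_QG
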